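import Pool.Agent.Lib.MP_f80667_ag.Mt.Fd
import Pool.Agent.Lib.MP_f80667_ag.Cv.Hat

/-!
The statement for a variety with morphisms to elliptic curves in terms of cycles (`DS.QsR`, `Do/Sta.lean`; copy of `Do/Psm.lean` for
the morphisms `DS.Mor`).
-/

open ZC BE PE CV IsDedekindDomain NumberField

namespace DN.T

variable {F : Type} [Field F] [NumberField F] {V V' : Vr F}

theorem psf_iff {φ : DS.Mor V V'} {c : Fam V} {c' : Fam V'} : DS.Psf φ c c' ↔ c' = φ.ad c := by
  constructor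
  · rintro ⟨h1, h2⟩
    exact Prod.ext (funext fun v => Subtype.ext (h1 v)) (funext fun v => Subtype.ext (h2 v))
  · rintro rfl
    exact ⟨fun _ => rfl, fun _ => rfl⟩

theorem isPm_iff {φ : DS.Mor V V'} {z : LHat (FA V)} {z' : LHat (FA V')} :
    DS.IsPm φ z z' ↔ z' = LHat.map φ.fa z := by
  have key : ∀ m : ℕ+, ∃ c : Fam V, z.Rep m c.cl := by
    intro m
    obtain ⟨x, hx⟩ := z.exists_rep m
    obtain ⟨c, rfl⟩ := clA_surj x
    exact ⟨c, hx⟩
  constructor
  · intro h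
    refine Subtype.ext (funext fun m => ?_)
    obtain ⟨c, hc⟩ := key m
    have h1 := h m c (φ.ad c) (psf_iff.2 rfl) hc
    have h2 := hc.map φ.fa
    exact h1.trans h2.symm
  · rintro rfl m c c' h hc
    rw [psf_iff] at h
    subst h
    exact hc.map φ.fa

theorem qsR_of {n : ℕ} {W : Fin n → WeierstrassCurve F} {s : ∀ i, DS.Mor V (Ev (W i))} {P : Set ℕ}
    (h : QsP s P) : DS.QsR s P := by
  obtain ⟨h1, h2⟩ := h
  refine ⟨fun m hm hS c hc => ?_, fun z z' hz => ?_⟩
  · obtain ⟨y, hy⟩ := h1 m hm hS c.cl fun i => by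
      obtain ⟨c', c'', hp, he⟩ := hc i
      rw [psf_iff] at hp
      subst hp
      exact ⟨c''.cl, he⟩
    obtain ⟨c₁, rfl⟩ := clA_surj y
    exact ⟨c₁, hy⟩
  · rw [h2 z]
    refine forall_congr' fun i => ?_
    rw [isPm_iff.1 (hz i)]

end DN.T
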