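import Pool.Agent.Lib.MP_f80667_ag.Mt.Fin
import Pool.Agent.Lib.MP_f80667_ag.De.Fd
import Pool.Agent.Lib.MP_f80667_ag.Do.CndB
import Pool.Agent.Lib.MP_f80667_ag.Do.LdD
import Pool.Agent.Lib.MP_f80667_ag.Do.Inp
import Pool.Agent.Lib.MP_f80667_ag.Cv.Dv

/-!
Varieties dominated by products of elliptic curves over number fields: the statement with the elliptic curves (copy of
`De/Fd.lean` for the morphisms `DS.Mor`).
-/

open ZC BE PE CV NE DN.Q IsDedekindDomain NumberField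

namespace DN.T

/-- The statement for the variety `V` with the morphisms `s i` to the elliptic curves `W i` and the prime numbers in `P`, compare
`DN.Q.QsP`. -/
def QsP {F : Type} [Field F] [NumberField F] {n : ℕ} {V : Vr F} {W : Fin n → WeierstrassCurve F}
    (s : ∀ i, DS.Mor V (Ev (W i))) (P : Set ℕ) : Prop :=
  (∀ m : ℕ, m ≠ 0 → Sf P m → ∀ x : FA V, (∀ i, ∃ y, (s i).fa x = m • y) → ∃ y, x = m • y) ∧
    ∀ z : LHat (FA V), ImDeS P z ↔ ∀ i, ImDeS P (LHat.map (s i).fa z)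

variable {F : Type} [Field F] [NumberField F] {N n d : ℕ} {ι : Type}
  {f : ι → MvPolynomial (Fin N) F} {W : Fin n → WeierstrassCurve F} [∀ i, (W i).IsElliptic]
  {Φ : Fin N → MvPolynomial (Fin n ⊕ Fin n) F} {h : MvPolynomial (Fin N) F} {D : ℕ}
  {s : ∀ i, DS.Mor (GX.Xf f) (Ev (W i))}

/-- **The theorem.** -/
theorem qs_X (hf : GX.Nsg f d) (hD : Dom f W Φ h D) (ht : DS.Tra f W Φ h s) :
    QsP s {l | Plc W l ∧ ¬ l ∣ D} := by
  obtain ⟨P, hP⟩ : ∃ P : Set ℕ, P = {l | Plc W l ∧ ¬ l ∣ D} := ⟨_, rfl⟩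
  rw [← hP]
  have hPl : ∀ l ∈ P, Plc W l ∧ ¬ l ∣ D := fun l hl => by rw [hP] at hl; exact hl
  rcases Nat.eq_zero_or_pos D with h0 | h0
  · have h1 : ∀ m, Sf P m → m = 1 := by
      intro m hm
      by_contra h2
      obtain ⟨l, hl, hd⟩ := Nat.exists_prime_and_dvd h2
      exact (hPl l (hm l hl hd)).2 (by rw [h0]; exact dvd_zero l)
    refine ⟨fun m _ hS x _ => ⟨x, by rw [h1 m hS, one_smul]⟩, fun z => ⟨fun hz i => qs2 hz i,
      fun _ => im_one (fun m hm => PNat.coe_eq_one_iff.1 (h1 m hm)) z⟩⟩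
  have hP2 : ∀ m, m ≠ 0 → Sf P m → Odd m := by
    intro m _ hS
    rw [← Nat.not_even_iff_odd, even_iff_two_dvd]
    exact fun h' => (hPl 2 (hS 2 Nat.prime_two h')).1.odd rfl
  have hPD : ∀ m, m ≠ 0 → Sf P m → m.Coprime D := by
    intro m _ hS
    refine Nat.Coprime.symm (Nat.coprime_of_dvd fun l hl h3 h4 => ?_)
    exact (hPl l (hS l hl h4)).2 h3
  have hd : ∀ (v : HeightOneSpectrum (𝓞 F)) (m : ℕ), m ≠ 0 → Sf P m →
      DvG (fun i => Ev (W i)) (FK F v) (AlgebraicClosure (FK F v)) m := by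
    intro v m hm hS
    exact (dvP_iff (FK F v) m).1 (dvP_of (Λ := P)
      (fun l hl _ => (dvP_iff (FK F v) l).2 (dv_fk (hPl l hl).1 v)) m hm hS)
  have hinf : ∀ (v : HeightOneSpectrum (𝓞 F)) (i), Infinite (Pt (W i) (FK F v)) :=
    fun v i => inf_fk (W i) v
  refine ⟨qs1 hf hD ht h0.ne' hinf hP2 hPD hd, fun z => ⟨fun hz i => qs2 hz i, fun hz =>
    qs3 hf hD ht h0.ne' hinf hP2 (fun l hl hp h3 => ?_) hd hz⟩⟩
  rcases hp.dvd_mul.1 h3 with h4 | h4
  · exact (hPl l hl).1.odd ((Nat.prime_dvd_prime_iff_eq hp Nat.prime_two).1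
      (hp.dvd_of_dvd_pow h4))
  · exact (hPl l hl).2 h4

/-- The same statement in the form for an extension `F' / F` with `F' = F`. -/
theorem qs_P (hf : GX.Nsg f d) (hD : Dom f W Φ h D) (ht : DS.Tra f W Φ h s) :
    QsP s {l | Plc W l ∧ ¬ l ∣ D * Module.finrank F F} := by
  rw [Module.finrank_self, mul_one]
  exact qs_X hf hD ht

end DN.T
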