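import Pool.Agent.Lib.MP_f80667_ag.Mt.Fib
import Pool.Agent.Lib.MP_f80667_ag.De.Loc
import Pool.Agent.Lib.MP_f80667_ag.De.Lm
import Pool.Agent.Lib.MP_f80667_ag.Do.Mvc

/-! The theorem over one field (copy of `De/Loc.lean` for the morphisms `DS.Mor`). -/

open ZC BE PE CV NE DN.Q

namespace DN.T

variable {F : Type} [Field F] [CharZero F] {N n d : ℕ} {ι : Type}
  {f : ι → MvPolynomial (Fin N) F} {W : Fin n → WeierstrassCurve F} [∀ i, (W i).IsElliptic]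
  {Φ : Fin N → MvPolynomial (Fin n ⊕ Fin n) F} {h : MvPolynomial (Fin N) F} {D : ℕ}
  {s : ∀ i, DS.Mor (GX.Xf f) (Ev (W i))} {K Ω : Type} [Field K] [CharZero K] [Field Ω] [Algebra K Ω]
  [IsAlgClosure K Ω] [Algebra F K] [Algebra F Ω] [IsScalarTower F K Ω]

/-- **The theorem over one field.** Proof: `mv_D0`: `z = z₁` modulo `ratEq`, `exists_pull`: `w`; `a w - B - m ∑ sc_i (u i)` has trivial push-forwards to the factors, `DvG`, `lem_m` for `a w - B`. -/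
theorem loc (hf : GX.Nsg f d) (hD : Dom f W Φ h D) (ht : DS.Tra f W Φ h s) (hD0 : D ≠ 0) [∀ i, Infinite (Pt (W i) K)]
    {m : ℕ} (hm : m ≠ 0) (hd : DvG (fun i => Ev (W i)) K Ω m) (o : (GX.Xf f).pt Ω)
    {z : (GX.Xf f).pt Ω →₀ ℤ} (hz : z ∈ (GX.Xf f).D0 K Ω) {B : (∀ i, Pt (W i) Ω) →₀ ℤ}
    (hB : B ∈ (Vpi fun i => Ev (W i)).D0 K Ω) (hsB : ∀ Q ∈ B.support, Q ∈ Dn W Φ Ω) {a : ℕ}
    (u : ∀ i, (Ev (W i)).pt Ω →₀ ℤ) (hu : ∀ i, u i ∈ (Ev (W i)).D0 K Ω)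
    (h1 : ∀ i, a • Finsupp.mapDomain ((s i).f Ω) z -
      Finsupp.mapDomain ((pr (V := fun i => Ev (W i)) i).f Ω) B - m • u i ∈
        (Ev (W i)).ratEq K Ω) :
    ∃ t ∈ (GX.Xf f).D0 K Ω,
      (a * D) • z - Finsupp.mapDomain (fv o Φ) B - m • t ∈ (GX.Xf f).ratEq K Ω := by
  classical
  obtain ⟨z₁, hz₁, hzz, hs₁⟩ := mv_D0 hf hD.hom hD.ne hz
  obtain ⟨w, hw, hpr, hsw, hpw⟩ := exists_pull hD ht hD0 o hz₁ hs₁
  obtain ⟨S, hS⟩ : ∃ S : (∀ i, Pt (W i) Ω) →₀ ℤ,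
      S = ∑ i, Finsupp.mapDomain ((sc (fun j => bpE (W j)) i).f Ω) (u i) := ⟨_, rfl⟩
  have hSD : S ∈ (Vpi fun i => Ev (W i)).D0 K Ω := by
    rw [hS]
    exact sum_mem fun i _ => (sc (fun j => bpE (W j)) i).D0 (hu i)
  have hpS : ∀ j, Finsupp.mapDomain ((pr (V := fun i => Ev (W i)) j).f Ω) S = u j := by
    intro j
    have e1 := map_sum (Finsupp.mapDomain.addMonoidHom (M := ℤ)
      ((pr (V := fun i => Ev (W i)) j).f Ω))
      (fun i => Finsupp.mapDomain ((sc (fun j => bpE (W j)) i).f Ω) (u i)) Finset.univ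
    rw [hS]
    refine e1.trans ?_
    rw [Finset.sum_eq_single j]
    · exact psc_self j (u j)
    · intro i _ hij
      exact psc_ne hij.symm (hu i).2
    · intro hj
      exact absurd (Finset.mem_univ j) hj
  have hwD : a • w - B ∈ (Vpi fun i => Ev (W i)).D0 K Ω := sub_mem (nsmul_mem hw a) hB
  have hpr2 : ∀ j, Finsupp.mapDomain ((pr (V := fun i => Ev (W i)) j).f Ω) (a • w - B - m • S) ∈
      (Ev (W j)).ratEq K Ω := by
    intro j
    let p : ((∀ i, Pt (W i) Ω) →₀ ℤ) →+ ((Ev (W j)).pt Ω →₀ ℤ) :=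
      Finsupp.mapDomain.addMonoidHom (M := ℤ) ((pr (V := fun i => Ev (W i)) j).f Ω)
    let q : ((GX.Xf f).pt Ω →₀ ℤ) →+ ((Ev (W j)).pt Ω →₀ ℤ) :=
      Finsupp.mapDomain.addMonoidHom (M := ℤ) ((s j).f Ω)
    have e1 : p (a • w - B - m • S) = a • p w - p B - m • p S := by
      rw [map_sub, map_sub, map_nsmul, map_nsmul]
    have e2 : p S = u j := hpS j
    have k1 : p w - q z₁ ∈ (Ev (W j)).ratEq K Ω := hpr j
    have k2 : q (z - z₁) ∈ (Ev (W j)).ratEq K Ω := (s j).ratEq K Ω hzz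
    have k3 : a • q z - p B - m • u j ∈ (Ev (W j)).ratEq K Ω := h1 j
    rw [map_sub] at k2
    have k4 := add_mem (sub_mem (nsmul_mem k1 a) (nsmul_mem k2 a)) k3
    have e3 : a • (p w - q z₁) - a • (q z - q z₁) + (a • q z - p B - m • u j) =
        a • p w - p B - m • u j := by
      rw [smul_sub, smul_sub]
      abel
    rw [e3] at k4
    change p (a • w - B - m • S) ∈ _
    rw [e1, e2]
    exact k4
  obtain ⟨w'', hw'', -, hww''⟩ := hd (a • w - B - m • S) (sub_mem hwD (nsmul_mem hSD m)) hpr2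
  obtain ⟨w', hwe⟩ : ∃ w' : (∀ i, Pt (W i) Ω) →₀ ℤ, w' = w'' := ⟨w'', rfl⟩
  have hw' : w' ∈ (Vpi fun i => Ev (W i)).D0 K Ω := by rw [hwe]; exact hw''
  have hww : a • w - B - m • (S + w') ∈ (Vpi fun i => Ev (W i)).ratEq K Ω := by
    have h2 : a • w - B - m • S - m • w' ∈ (Vpi fun i => Ev (W i)).ratEq K Ω := by
      rw [hwe]; exact hww''
    have e : a • w - B - m • (S + w') = a • w - B - m • S - m • w' := by
      rw [smul_add]
      abel
    rw [e]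
    exact h2
  obtain ⟨t, ht, hr⟩ := lem_m hD hm o hwD (fun Q hQ => by
    rcases Finset.mem_union.1 (Finsupp.support_sub hQ) with hQ | hQ
    · exact hsw Q (Finsupp.support_smul hQ)
    · exact hsB Q hQ) (add_mem hSD hw') hww
  refine ⟨t, ht, ?_⟩
  let p : ((∀ i, Pt (W i) Ω) →₀ ℤ) →+ ((GX.Xf f).pt Ω →₀ ℤ) :=
    Finsupp.mapDomain.addMonoidHom (M := ℤ) (fv (f := f) o Φ)
  have e1 : p (a • w - B) = a • p w - p B := by rw [map_sub, map_nsmul]
  have e2 : p w = D • z₁ := hpw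
  have k1 : p (a • w - B) - m • t ∈ (GX.Xf f).ratEq K Ω := hr
  rw [e1, e2] at k1
  have k2 := add_mem k1 (nsmul_mem hzz (a * D))
  have e3 : a • D • z₁ - p B - m • t + (a * D) • (z - z₁) = (a * D) • z - p B - m • t := by
    rw [smul_sub, mul_smul, mul_smul]
    abel
  rw [e3] at k2
  exact k2

end DN.T
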