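import Pool.Agent.Lib.MP_f80667_ag.De.The
import Pool.Agent.Lib.MP_f80667_ag.De.Aj
import Pool.Agent.Lib.MP_f80667_ag.De.Cl
import Pool.Agent.Lib.MP_f80667_ag.De.Lh
import Pool.Agent.Lib.MP_f80667_ag.Mt.Loc

/-! The global theorem (copy of `De/Gl.lean` for the morphisms `DS.Mor`). -/

open ZC BE PE CV NE DN.Q IsDedekindDomain NumberField

namespace DN.T

section one

variable {F : Type} [Field F] [CharZero F] {N n d : ℕ} {ι : Type}
  {f : ι → MvPolynomial (Fin N) F} {W : Fin n → WeierstrassCurve F} [∀ i, (W i).IsElliptic]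
  {Φ : Fin N → MvPolynomial (Fin n ⊕ Fin n) F} {h : MvPolynomial (Fin N) F} {D : ℕ}
  {s : ∀ i, DS.Mor (GX.Xf f) (Ev (W i))} {K : Type} [Field K] [CharZero K] [Algebra F K]

/-- A class is divisible by `m` if its push-forwards are. -/
theorem gp_m (hf : GX.Nsg f d) (hD : Dom f W Φ h D) (ht : DS.Tra f W Φ h s) (hD0 : D ≠ 0)
    [∀ i, Infinite (Pt (W i) K)] {m : ℕ} (hm : m ≠ 0) (hc : m.Coprime D)
    (hd : DvG (fun i => Ev (W i)) K (AlgebraicClosure K) m)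
    (o : (GX.Xf f).pt (AlgebraicClosure K)) (x : BE.Gp (GX.Xf f) K)
    (hx : ∀ i, ∃ y, (s i).gp K x = m • y) : ∃ y, x = m • y := by
  obtain ⟨z, rfl⟩ := Gp.cls_surj x
  have h1 : ∀ i, ∃ t : Dz (Ev (W i)) K, Finsupp.mapDomain ((s i).f (AlgebraicClosure K)) z.1 -
      m • t.1 ∈ (Ev (W i)).ratEq K (AlgebraicClosure K) := by
    intro i
    obtain ⟨y, hy⟩ := hx i
    obtain ⟨t, rfl⟩ := Gp.cls_surj y
    refine ⟨t, ?_⟩
    have h2 := cls_to (V := Ev (W i)) (c := (s i).dz K z) (c' := 0) (t := t) (m := m) (by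
      rw [map_zero, zero_add]
      exact hy)
    have e : ((0 : Dz (Ev (W i)) K) : (Ev (W i)).pt (AlgebraicClosure K) →₀ ℤ) = 0 := rfl
    rw [e, sub_zero] at h2
    exact h2
  choose t ht' using h1
  obtain ⟨T, hT, hr⟩ := loc hf hD ht hD0 hm hd o z.2 (B := 0) (zero_mem _)
    (fun Q hQ => absurd hQ (by simp)) (a := 1) (fun i => (t i).1) (fun i => (t i).2) (fun i => by
      erw [one_smul, Finsupp.mapDomain_zero, sub_zero]
      exact ht' i)
  rw [one_mul, Finsupp.mapDomain_zero, sub_zero] at hr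
  have hb : (m : ℤ) * Nat.gcdA m D + D * Nat.gcdB m D = 1 := by
    have h3 := Nat.gcd_eq_gcd_ab m D
    rw [hc.gcd_eq_one] at h3
    exact_mod_cast h3.symm
  let Y : Dz (GX.Xf f) K := Nat.gcdB m D • (⟨T, hT⟩ : Dz (GX.Xf f) K) + Nat.gcdA m D • z
  refine ⟨Gp.clsH _ K Y, ?_⟩
  have h2 := cls_of (V := GX.Xf f) (c := z) (c' := 0) (t := Y) (m := m) (by
    have e : ((0 : Dz (GX.Xf f) K) : (GX.Xf f).pt (AlgebraicClosure K) →₀ ℤ) = 0 := rfl
    rw [e, sub_zero]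
    have h3 := zsmul_mem hr (Nat.gcdB m D)
    have e1 : Y.1 = Nat.gcdB m D • T + Nat.gcdA m D • z.1 := rfl
    have e2 : Nat.gcdB m D • (D • z.1 - m • T) = z.1 - m • Y.1 := by
      rw [e1]
      have h4 : z.1 - m • (Nat.gcdB m D • T + Nat.gcdA m D • z.1) =
          ((m : ℤ) * Nat.gcdA m D + D * Nat.gcdB m D) • z.1 -
            m • (Nat.gcdB m D • T + Nat.gcdA m D • z.1) := by rw [hb, one_smul]
      rw [h4]
      module
    rw [← e2]
    exact h3)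
  rw [map_zero, zero_add] at h2
  exact h2

/-- **One place.** -/
theorem one_y (hf : GX.Nsg f d) (hD : Dom f W Φ h D) (ht : DS.Tra f W Φ h s) (hD0 : D ≠ 0)
    [∀ i, Infinite (Pt (W i) K)] {m : ℕ} (hm : m ≠ 0)
    (hd : DvG (fun i => Ev (W i)) K (AlgebraicClosure K) m)
    (o : (GX.Xf f).pt (AlgebraicClosure F)) {B : (∀ i, Pt (W i) (AlgebraicClosure F)) →₀ ℤ}
    (hB : B ∈ (Vpi fun i => Ev (W i)).D0 F (AlgebraicClosure F))
    (hsB : ∀ Q ∈ B.support, Q ∈ Dn W Φ (AlgebraicClosure F))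
    (e : ∀ i, Dz (Ev (W i)) F) {a : ℕ}
    (hpr : ∀ i, Finsupp.mapDomain
      ((pr (V := fun i => Ev (W i)) i).f (AlgebraicClosure F)) B - a • (e i).1 ∈
        (Ev (W i)).ratEq F (AlgebraicClosure F))
    (z : Dz (GX.Xf f) K) (u : ∀ i, Dz (Ev (W i)) K)
    (hu : ∀ i, Finsupp.mapDomain ((s i).f (AlgebraicClosure K)) z.1 -
      BE.bc (V := Ev (W i)) K (e i).1 - m • (u i).1 ∈
        (Ev (W i)).ratEq K (AlgebraicClosure K)) :
    ∃ t : Dz (GX.Xf f) K, (a * D) • z.1 - BE.bc (V := GX.Xf f) K (Finsupp.mapDomain (fv o Φ) B) -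
      m • t.1 ∈ (GX.Xf f).ratEq K (AlgebraicClosure K) := by
  obtain ⟨o'⟩ : Nonempty ((GX.Xf f).pt (AlgebraicClosure K)) :=
    ⟨(GX.Xf f).map (BE.emb F K) o⟩
  obtain ⟨T, hT, hr⟩ := loc hf hD ht hD0 hm hd o' z.2
    (B := BE.bc (V := Vpi fun i => Ev (W i)) K B)
    (bc_D0 (Fct.pi fun i => (hfE (W i)).out) hB) (bc_dn hsB) (a := a)
    (fun i => a • (u i).1) (fun i => nsmul_mem (u i).2 a) (fun i => by
      let p : ((∀ i, Pt (W i) (AlgebraicClosure F)) →₀ ℤ) →+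
          ((Ev (W i)).pt (AlgebraicClosure F) →₀ ℤ) :=
        Finsupp.mapDomain.addMonoidHom (M := ℤ)
          ((pr (V := fun i => Ev (W i)) i).f (AlgebraicClosure F))
      have h1 := bc_ratEq (K := K) (W i) (hpr i)
      have h2 := bc_sub3 (V := Ev (W i)) (K := K) (p B) (e i).1 0 a 0
      rw [smul_zero, sub_zero, zero_smul, sub_zero] at h2
      have h3 : BE.bc (V := Ev (W i)) K (p B) = Finsupp.mapDomain
          ((pr (V := fun i => Ev (W i)) i).f (AlgebraicClosure K))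
          (BE.bc (V := Vpi fun i => Ev (W i)) K B) :=
        (pr (V := fun i => Ev (W i)) i).bc_map (K := K) B
      rw [h3] at h2
      have h4 : BE.bc (V := Ev (W i)) K (p B - a • (e i).1) ∈
        (Ev (W i)).ratEq K (AlgebraicClosure K) := h1
      rw [h2] at h4
      have h5 := sub_mem (nsmul_mem (hu i) a) h4
      have e5 : a • (Finsupp.mapDomain ((s i).f (AlgebraicClosure K)) z.1 -
          BE.bc (V := Ev (W i)) K (e i).1 - m • (u i).1) - (Finsupp.mapDomain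
            ((pr (V := fun i => Ev (W i)) i).f (AlgebraicClosure K))
            (BE.bc (V := Vpi fun i => Ev (W i)) K B) - a • BE.bc (V := Ev (W i)) K (e i).1) =
          a • Finsupp.mapDomain ((s i).f (AlgebraicClosure K)) z.1 - Finsupp.mapDomain
            ((pr (V := fun i => Ev (W i)) i).f (AlgebraicClosure K))
            (BE.bc (V := Vpi fun i => Ev (W i)) K B) - m • a • (u i).1 := by
        rw [smul_sub, smul_sub, smul_comm a m]
        abel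
      rw [e5] at h5
      exact h5)
  refine ⟨⟨T, hT⟩, ?_⟩
  rw [bc_fv hD o o' hsB]
  exact hr

end one

section nf

variable {F : Type} [Field F] [NumberField F] {N n d : ℕ} {ι : Type}
  {f : ι → MvPolynomial (Fin N) F} {W : Fin n → WeierstrassCurve F} [∀ i, (W i).IsElliptic]
  {Φ : Fin N → MvPolynomial (Fin n ⊕ Fin n) F} {h : MvPolynomial (Fin N) F} {D : ℕ}
  {s : ∀ i, DS.Mor (GX.Xf f) (Ev (W i))}

/-- **The families.** -/
theorem rep_y (hf : GX.Nsg f d) (hD : Dom f W Φ h D) (ht : DS.Tra f W Φ h s) (hD0 : D ≠ 0)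
    (hinf : ∀ (v : HeightOneSpectrum (𝓞 F)) (i), Infinite (Pt (W i) (FK F v))) {m : ℕ+}
    (hm : Odd (m : ℕ)) (hd : ∀ v : HeightOneSpectrum (𝓞 F),
      DvG (fun i => Ev (W i)) (FK F v) (AlgebraicClosure (FK F v)) m)
    (o : (GX.Xf f).pt (AlgebraicClosure F)) {z : LHat (FA (GX.Xf f))}
    {B : (∀ i, Pt (W i) (AlgebraicClosure F)) →₀ ℤ}
    (hB : B ∈ (Vpi fun i => Ev (W i)).D0 F (AlgebraicClosure F))
    (hsB : ∀ Q ∈ B.support, Q ∈ Dn W Φ (AlgebraicClosure F))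
    (e : ∀ i, Zc (Ev (W i)) F) (e' : ∀ i, Fam (Ev (W i))) (he : ∀ i, IsBcF (e i) (e' i))
    (hz : ∀ i, (LHat.map (s i).fa z).Rep m (e' i).cl) {a : ℕ}
    (hpr : ∀ i, Finsupp.mapDomain
      ((pr (V := fun i => Ev (W i)) i).f (AlgebraicClosure F)) B - a • (e i).cy ∈
        (Ev (W i)).ratEq F (AlgebraicClosure F))
    {c : ℤ} (hc : ∃ k : ℤ, c * (a * D : ℕ) = 1 + m * k) {Y : Zc (GX.Xf f) F}
    (hY : Y.cy = c • Finsupp.mapDomain (fv o Φ) B) {Y' : Fam (GX.Xf f)} (hY' : IsBcF Y Y') :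
    z.Rep m Y'.cl := by
  obtain ⟨g, hg⟩ := z.exists_rep m
  obtain ⟨g, rfl⟩ := clA_surj g
  obtain ⟨k, hk⟩ := hc
  refine rep_fam hm (c := g) hg fun v => ?_
  have hc : CharZero (FK F v) := charZero_of_injective_algebraMap (algebraMap F (FK F v)).injective
  have h1 : ∀ i, ∃ u : Dz (Ev (W i)) (FK F v),
      Finsupp.mapDomain ((s i).f (AlgebraicClosure (FK F v))) (g.1 v).1 -
        BE.bc (V := Ev (W i)) (FK F v) (e i).cy - (m : ℕ) • u.1 ∈
          (Ev (W i)).ratEq (FK F v) (AlgebraicClosure (FK F v)) := by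
    intro i
    have h2 : (LHat.map (s i).fa z).Rep m (clH _ ((s i).ad g)) := hg.map (s i).fa
    obtain ⟨w, hw⟩ := rep_sub h2 (hz i)
    obtain ⟨u, hu⟩ := Gp.cls_surj (w.1 v)
    refine ⟨u, ?_⟩
    have h3 : Gp.clsH (Ev (W i)) (FK F v) ((s i).dz (FK F v) (g.1 v)) =
        Gp.clsH (Ev (W i)) (FK F v) ((e' i).f v) + (m : ℕ) • Gp.clsH (Ev (W i)) (FK F v) u := by
      have h4 := congrFun (congrArg Prod.fst hw) v
      refine h4.trans ?_
      have h5 : Gp.clsH (Ev (W i)) (FK F v) u = w.1 v := hu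
      rw [h5]
      rfl
    have h6 := cls_to h3
    have h7 : ((e' i).f v).cy = BE.bc (V := Ev (W i)) (FK F v) (e i).cy := (he i).1 v
    rw [← h7]
    exact h6
  choose u hu using h1
  have hi : ∀ i, Infinite (Pt (W i) (FK F v)) := hinf v
  obtain ⟨t, htt⟩ := one_y hf hD ht hD0 (K := FK F v) m.ne_zero (hd v) o hB hsB e hpr (g.1 v) u hu
  let Z : Dz (GX.Xf f) (FK F v) := c • t - k • g.1 v
  refine ⟨Z, ?_⟩
  rw [hY'.1 v, hY]
  let p : ((GX.Xf f).pt (AlgebraicClosure F) →₀ ℤ) →+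
      ((GX.Xf f).pt (AlgebraicClosure (FK F v)) →₀ ℤ) :=
    Finsupp.mapDomain.addMonoidHom (M := ℤ) ((GX.Xf f).map (BE.emb F (FK F v)))
  have h8 : BE.bc (V := GX.Xf f) (FK F v) (c • Finsupp.mapDomain (fv o Φ) B) =
      c • BE.bc (V := GX.Xf f) (FK F v) (Finsupp.mapDomain (fv o Φ) B) := map_zsmul p c _
  rw [h8]
  have h9 := zsmul_mem htt c
  have e1 : Z.1 = c • t.1 - k • (g.1 v).1 := rfl
  have e2 : (Fam.f (V := GX.Xf f) g v).cy = (g.1 v).1 := rfl
  have e3 : c • ((a * D) • (g.1 v).1 - BE.bc (V := GX.Xf f) (FK F v)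
      (Finsupp.mapDomain (fv o Φ) B) - (m : ℕ) • t.1) = (Fam.f (V := GX.Xf f) g v).cy -
        c • BE.bc (V := GX.Xf f) (FK F v) (Finsupp.mapDomain (fv o Φ) B) - (m : ℕ) • Z.1 := by
    rw [e1, e2]
    have h4 : c • (a * D) • (g.1 v).1 = (g.1 v).1 + (m : ℕ) • k • (g.1 v).1 := by
      rw [← natCast_zsmul (g.1 v).1 (a * D), smul_smul, hk, add_smul, one_smul, mul_smul,
        natCast_zsmul]
    rw [smul_sub, smul_sub, h4, smul_sub, smul_comm c (m : ℕ) t.1]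
    abel
  rw [e3] at h9
  exact h9

end nf

end DN.T
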