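import Pool.Agent.Lib.MP_f80667_ag.Do.Sta
import Pool.Agent.Lib.MP_f80667_ag.Cv.Mo

/-!
Morphisms of varieties over `F` (`DS.Mor`: natural maps of points which are compatible with the reduction at the places over `F`) and
their push-forwards on zero-cycles, the copy of `Cv/Mo.lean` for this definition: `Mor.ratEq`, `Mor.nrm`, `Mor.D0`, the
homomorphisms `Mor.dz`, `Mor.gp`, `Mor.gb` and for families `Mor.ad`, `Mor.fa`.
-/

open ZC BE CV IntermediateField IsDedekindDomain NumberField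

namespace DS

section defs

variable {F : Type} [Field F]

namespace Mor

variable {V V' : Vr F}

/-- Cycles rationally equivalent to `0` go to such cycles. -/
theorem ratEq (φ : Mor V V') (K : Type) [Field K] [Algebra F K] (Ω : Type)
    [Field Ω] [Algebra K Ω] [Algebra F Ω] [IsScalarTower F K Ω] {z : V.pt Ω →₀ ℤ}
    (hz : z ∈ V.ratEq K Ω) : Finsupp.mapDomain (φ.f Ω) z ∈ V'.ratEq K Ω := by
  have h : V.ratEq K Ω ≤ (V'.ratEq K Ω).comap (Finsupp.mapDomain.addMonoidHom (φ.f Ω)) := by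
    rw [Vr.ratEq, AddSubgroup.closure_le]
    rintro _ ⟨E, i1, i2, i3, i4, hE, g, x, hg, hx, S, m, y, hS, hv, rfl⟩
    change Finsupp.mapDomain (φ.f Ω) _ ∈ V'.ratEq K Ω
    rw [Finsupp.mapDomain_finsetSum]
    have j1 : IsScalarTower F K (AlgebraicClosure E) :=
      IsScalarTower.of_algebraMap_eq fun a => by
        rw [IsScalarTower.algebraMap_apply F E (AlgebraicClosure E),
          IsScalarTower.algebraMap_apply K E (AlgebraicClosure E),
          IsScalarTower.algebraMap_apply F K E]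
    refine AddSubgroup.subset_closure ⟨E, i1, i2, i3, i4, hE, g, φ.f _ x, hg, fun σ => ?_, S, m,
      fun w => φ.f Ω (y w), hS, fun w hw => ⟨(hv w hw).1, ?_⟩, ?_⟩
    · change V'.map _ (φ.f _ x) = φ.f _ x
      rw [φ.nat]
      exact congrArg (φ.f _) (hx σ)
    · obtain ⟨W, h1, h2, h3⟩ := (hv w hw).2
      exact ⟨W, h1, h2, φ.red K _ _ W x (y w) h3⟩
    · refine Finset.sum_congr rfl fun w _ => ?_
      rw [Finsupp.mapDomain_single]
  exact h hz

section eqv

variable {K : Type} [Field K] [Algebra F K] {Ω : Type} [Field Ω] [Algebra K Ω] [Algebra F Ω]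
  [IsScalarTower F K Ω]

theorem act (φ : Mor V V') (σ : Ω ≃ₐ[K] Ω) (x : V.pt Ω) :
    V'.act σ (φ.f Ω x) = φ.f Ω (V.act σ x) := φ.nat Ω Ω _ x

/-- Norms go to norms. -/
theorem nrm (φ : Mor V V') {z : V.pt Ω →₀ ℤ} (hz : z ∈ V.nrm K Ω) :
    Finsupp.mapDomain (φ.f Ω) z ∈ V'.nrm K Ω := by
  have h : V.nrm K Ω ≤ (V'.nrm K Ω).comap (Finsupp.mapDomain.addMonoidHom (φ.f Ω)) := by
    rw [Vr.nrm, AddSubgroup.closure_le]
    rintro _ ⟨x, rfl⟩
    change Finsupp.mapDomain.addMonoidHom (φ.f Ω) _ ∈ V'.nrm K Ω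
    rcases finite_or_infinite (Ω ≃ₐ[K] Ω) with hfin | hinf
    · rw [map_finsum _ (Set.toFinite _)]
      refine AddSubgroup.subset_closure ⟨φ.f Ω x, finsum_congr fun σ => ?_⟩
      rw [Finsupp.mapDomain.addMonoidHom_apply, Finsupp.mapDomain_single, φ.act]
    · rw [finsum_of_infinite_support, map_zero]
      · exact zero_mem _
      · have h1 : (Function.support fun σ : Ω ≃ₐ[K] Ω =>
            Finsupp.single (V.act σ x) (1 : ℤ)) = Set.univ := by
          refine Set.eq_univ_of_forall fun σ => ?_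
          rw [Function.mem_support, Ne, Finsupp.single_eq_zero]
          exact one_ne_zero
        rw [h1]
        exact Set.infinite_univ
  exact h hz

/-- Galois invariant cycles go to such cycles. -/
theorem cyc (φ : Mor V V') {z : V.pt Ω →₀ ℤ} (hz : z ∈ V.cyc K Ω) :
    Finsupp.mapDomain (φ.f Ω) z ∈ V'.cyc K Ω := by
  intro σ
  rw [← Finsupp.mapDomain_comp]
  have h1 : V'.act σ ∘ φ.f Ω = φ.f Ω ∘ V.act σ := funext fun x => φ.act σ x
  rw [h1, Finsupp.mapDomain_comp]
  exact congrArg _ (hz σ)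

/-- Cycles of degree `0` go to such cycles. -/
theorem D0 (φ : Mor V V') {z : V.pt Ω →₀ ℤ} (hz : z ∈ V.D0 K Ω) :
    Finsupp.mapDomain (φ.f Ω) z ∈ V'.D0 K Ω :=
  ⟨φ.cyc hz.1, (Mo.deg _ z).trans hz.2⟩

theorem sup (φ : Mor V V') {z : V.pt Ω →₀ ℤ} (hz : z ∈ V.ratEq K Ω ⊔ V.nrm K Ω) :
    Finsupp.mapDomain (φ.f Ω) z ∈ V'.ratEq K Ω ⊔ V'.nrm K Ω := by
  obtain ⟨a, ha, b, hb, rfl⟩ := AddSubgroup.mem_sup.1 hz
  exact AddSubgroup.mem_sup.2 ⟨_, φ.ratEq K Ω ha, _, φ.nrm hb, Finsupp.mapDomain_add.symm⟩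

end eqv

variable (K : Type) [Field K] [Algebra F K]

/-- The push-forward of cycles of degree `0`. -/
noncomputable def dz (φ : Mor V V') : Dz V K →+ Dz V' K where
  toFun z := ⟨Finsupp.mapDomain (φ.f _) z.1, φ.D0 z.2⟩
  map_zero' := Subtype.ext (Finsupp.mapDomain_zero (f := φ.f (AlgebraicClosure K)))
  map_add' _ _ := Subtype.ext (Finsupp.mapDomain_add (f := φ.f (AlgebraicClosure K)))

variable {K} in
theorem dz_coe (φ : Mor V V') (z : Dz V K) :
    ((φ.dz K z : Dz V' K) : V'.pt (AlgebraicClosure K) →₀ ℤ) = Finsupp.mapDomain (φ.f _) z.1 := rfl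

/-- The push-forward of classes. -/
noncomputable def gp (φ : Mor V V') : BE.Gp V K →+ BE.Gp V' K :=
  Gp.map (φ.dz K) fun _ h => φ.ratEq K _ h

/-- The push-forward of classes modulo norms. -/
noncomputable def gb (φ : Mor V V') : Gb V K →+ Gb V' K := Gb.map (φ.dz K) fun _ h => φ.sup h

variable {K}

/-- The push-forward commutes with base change. -/
theorem bc_map (φ : Mor V V') (z : V.pt (AlgebraicClosure F) →₀ ℤ) :
    BE.bc (V := V') K (Finsupp.mapDomain (φ.f _) z) =
      Finsupp.mapDomain (φ.f _) (BE.bc (V := V) K z) := by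
  unfold BE.bc
  rw [← Finsupp.mapDomain_comp, ← Finsupp.mapDomain_comp]
  exact congrArg (fun g => Finsupp.mapDomain g z) (funext fun x => φ.nat _ _ (BE.emb F K) x)

end Mor

end defs

section fam

variable {F : Type} [Field F] [NumberField F] {V V' : Vr F}

namespace Mor

/-- The push-forward of families. -/
noncomputable def ad (φ : Mor V V') : AdF V →+ AdF V' where
  toFun c := (fun v => φ.dz (FK F v) (c.1 v), fun v => φ.dz (IK F v) (c.2 v))
  map_zero' := Prod.ext (funext fun _ => map_zero _) (funext fun _ => map_zero _)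
  map_add' _ _ := Prod.ext (funext fun _ => map_add _ _ _) (funext fun _ => map_add _ _ _)

/-- The push-forward of classes of families. -/
noncomputable def fa (φ : Mor V V') : FA V →+ FA V' where
  toFun x := (fun v => φ.gp (FK F v) (x.1 v), fun v => φ.gb (IK F v) (x.2 v))
  map_zero' := Prod.ext (funext fun _ => map_zero _) (funext fun _ => map_zero _)
  map_add' _ _ := Prod.ext (funext fun _ => map_add _ _ _) (funext fun _ => map_add _ _ _)

theorem fa_cl (φ : Mor V V') (c : AdF V) : φ.fa (clH V c) = clH V' (φ.ad c) := rfl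

/-- The push-forward of the family of base changes. -/
theorem isBcF (φ : Mor V V') {c : Zc V F} {c' : Fam V} (h : IsBcF c c') :
    IsBcF (V := V') (φ.dz F c) (φ.ad c') := by
  refine ⟨fun v => ?_, fun v => ?_⟩
  · refine Eq.trans ?_ (φ.bc_map (K := FK F v) c.cy).symm
    rw [← h.1 v]
    rfl
  · refine Eq.trans ?_ (φ.bc_map (K := IK F v) c.cy).symm
    rw [← h.2 v]
    rfl

end Mor

end fam

end DS
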